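import Pool.Agent.Lib.MP_859259_nt.ClsE

/-- For positive integers a > b and a prime p coprime to a: every residue r modulo p is taken by
C(a n + α, b n + β) for infinitely many n, for all integers α, β, exactly when p does not divide
b (a - b) and (a, b, p) is not of the form a = 2 b, b even, p = 3 or 5. -/
theorem Pool.Agent.Results.MP_859259_nt.Classification.result :
    ∀ a b p : ℕ, 0 < b → b < a → p.Prime → Nat.gcd p a = 1 →
      ((∀ (α β : ℤ) (r : ℕ), r < p →
          {n : ℕ | 0 < n ∧ 0 ≤ (b : ℤ) * n + β ∧ (b : ℤ) * n + β ≤ (a : ℤ) * n + α ∧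
            Nat.choose ((a : ℤ) * n + α).toNat ((b : ℤ) * n + β).toNat ≡ r [MOD p]}.Infinite) ↔
        (¬ p ∣ b * (a - b) ∧ ¬ (a = 2 * b ∧ Even b ∧ (p = 3 ∨ p = 5)))) := by
  intro a b p b0 hab hp hg
  obtain ⟨c, rfl⟩ := Nat.exists_eq_add_of_le hab.le
  have ha : ¬ p ∣ b + c := hp.coprime_iff_not_dvd.1 hg
  have e : b + c = 2 * b ↔ c = b := by omega
  rw [Nat.add_sub_cancel_left, hp.dvd_mul, not_or, e, and_assoc]
  exact ⟨fun H => Pool.Agent.Lib.MP_859259_nt.cls_neg hp b0 ha fun α β r hr =>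
      (H α β r hr).mono fun n hn => ⟨hn.1, hn.2.2.2⟩,
    fun h α β r _ => Pool.Agent.Lib.MP_859259_nt.cls_pos hp h.1 h.2.1 ha h.2.2 α β r⟩
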